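import Mathlib
import Pool.Agent.N854.MX2.Core

/-!
Lower bound for a linear form in two logarithms, one of them that of the unit `la u` (project MX2 of helper576).
-/

set_option autoImplicit false

namespace Pool.Agent.N854.MX2

open Polynomial Pool.Agent.N576.MX2

lemma log_la_ge {u : ℤ} (hu : 1 ≤ u) : (3 / 5 : ℝ) ≤ Real.log (la u) := by
  have h1 := la_gt hu
  have h2 : Real.log (5 / 2) ≤ Real.log (la u) := Real.log_le_log (by norm_num) h1
  have h3 := Real.one_sub_inv_le_log_of_pos (show (0:ℝ) < 5 / 2 by norm_num)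
  norm_num at h3
  linarith

/-- the numbers of the field: `N α = A₀ + A₁ λ` and the conjugate -/
lemma coords {u P Q N : ℤ} {α Y : ℝ} (hu : 1 ≤ u) (h : α * N = P + Q * Real.sqrt (De u))
    (hP : |(P : ℝ)| ≤ Real.exp Y) (hQ : |(Q : ℝ)| * Real.sqrt (De u) ≤ Real.exp Y) :
    ∃ A0 A1 : ℤ, α * N = A0 + A1 * la u ∧ |(A0 : ℝ) + A1 * (la u)⁻¹| ≤ 2 * Real.exp Y ∧
      |α * N| ≤ 2 * Real.exp Y := by
  have hw : Real.sqrt (De u) = 2 * la u - 3 * u := by rw [la_eq]; ring
  have hQ' : |(Q : ℝ) * Real.sqrt (De u)| ≤ Real.exp Y := by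
    rw [abs_mul, abs_of_nonneg (Real.sqrt_nonneg _)]
    exact hQ
  refine ⟨P - 3 * u * Q, 2 * Q, ?_, ?_, ?_⟩
  · rw [h, hw]
    push_cast
    ring
  · have e : ((P - 3 * u * Q : ℤ) : ℝ) + ((2 * Q : ℤ) : ℝ) * (la u)⁻¹ = P - Q * Real.sqrt (De u) := by
      rw [la_inv hu, hw]
      push_cast
      ring
    rw [e]
    have := abs_sub (P : ℝ) (Q * Real.sqrt (De u))
    linarith
  · rw [h]
    have := abs_add_le (P : ℝ) (Q * Real.sqrt (De u))
    linarith

/-- **Linear forms in two logarithms.** -/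
theorem twolog : TWOLOG := by
  refine ⟨10 ^ 11, by norm_num, ?_⟩
  intro u P Q N a b α Y B hu hN hα hPQ hY hB hlY hP hQ hNY hb hbB haB hne
  obtain ⟨A0, A1, hA, hconj, hsize⟩ := coords hu hPQ hP hQ
  have hlam := la_gt hu
  have hlam0 : 0 < la u := by linarith
  have hll := log_la_ge hu
  set l : ℝ := Real.log (la u) with hl
  have hl0 : 0 < l := by linarith
  have hNr : (1:ℝ) ≤ N := by exact_mod_cast hN
  have hbr : (1:ℝ) ≤ b := by exact_mod_cast hb
  have hB0 : 0 < B := by linarith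
  have hBYB : B ≤ Y * B := le_mul_of_one_le_left hB0.le hY
  have hYB : 2 ≤ Y * B := hB.trans hBYB
  -- bounds for `log α`
  have he1 : (2:ℝ) ≤ Real.exp 1 := by
    have := Real.add_one_le_exp (1:ℝ)
    linarith
  have hαup : Real.log α ≤ Y + 1 := by
    rw [Real.log_le_iff_le_exp hα, Real.exp_add]
    have h1 : α ≤ |α * N| := by
      rw [abs_of_pos (by positivity)]
      exact le_mul_of_one_le_right hα.le hNr
    have h2 : 2 * Real.exp Y ≤ Real.exp Y * Real.exp 1 := by
      rw [mul_comm]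
      exact mul_le_mul_of_nonneg_left he1 (Real.exp_pos _).le
    linarith
  have hαlo : -(2 * Y + 1) ≤ Real.log α := by
    have h1 := norm_ge hu (C A0 + C A1 * X) (by
      have : aeval (la u) (C A0 + C A1 * X : ℤ[X]) = A0 + A1 * la u := by simp
      rw [this, ← hA]
      positivity)
    have h2 : aeval (la u) (C A0 + C A1 * X : ℤ[X]) = A0 + A1 * la u := by simp
    have h3 : aeval (la u)⁻¹ (C A0 + C A1 * X : ℤ[X]) = A0 + A1 * (la u)⁻¹ := by simp
    rw [h2, h3, ← hA, abs_of_pos (by positivity : 0 < α * (N:ℝ))] at h1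
    have h4 : (1:ℝ) ≤ α * Real.exp (2 * Y + 1) := by
      calc (1:ℝ) ≤ α * N * |(A0 : ℝ) + A1 * (la u)⁻¹| := h1
        _ ≤ α * Real.exp Y * (2 * Real.exp Y) := by gcongr
        _ ≤ α * Real.exp Y * (Real.exp 1 * Real.exp Y) := by gcongr
        _ = α * Real.exp (2 * Y + 1) := by
          rw [show 2 * Y + 1 = Y + (1 + Y) by ring, Real.exp_add, Real.exp_add]
          ring
    rw [Real.le_log_iff_exp_le hα, Real.exp_neg]
    rw [inv_le_iff_one_le_mul₀ (Real.exp_pos _)]
    exact h4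
  -- the change of `α`
  obtain ⟨k, hk⟩ : ∃ k : ℕ, k = ⌈(l - Real.log α) / l⌉₊ := ⟨_, rfl⟩
  have hk1 : l ≤ Real.log α + k * l := by
    have h1 : (l - Real.log α) / l ≤ k := by rw [hk]; exact Nat.le_ceil _
    rw [div_le_iff₀ hl0] at h1
    linarith
  have hk2 : Real.log α + k * l ≤ 3 * Y := by
    rcases Nat.eq_zero_or_pos k with h0 | h0
    · rw [h0]
      push_cast
      linarith
    · have h1 : (k:ℝ) < (l - Real.log α) / l + 1 := by
        rw [hk]
        apply Nat.ceil_lt_add_one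
        by_contra hneg
        rw [not_le] at hneg
        have : k = 0 := by rw [hk]; exact Nat.ceil_eq_zero.2 hneg.le
        omega
      have h2 : (k:ℝ) * l < (l - Real.log α) + l := by
        calc (k:ℝ) * l < ((l - Real.log α) / l + 1) * l := mul_lt_mul_of_pos_right h1 hl0
          _ = (l - Real.log α) + l := by field_simp
      linarith
  have hk3 : (k:ℝ) ≤ 10 * Y := by
    have h1 : (k:ℝ) * l ≤ 3 * Y + (2 * Y + 1) := by linarith
    have h2 : (k:ℝ) * (3 / 5) ≤ k * l := mul_le_mul_of_nonneg_left hll (Nat.cast_nonneg _)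
    linarith
  obtain ⟨q, hq⟩ : ∃ q : ℝ, q = α * la u ^ k := ⟨_, rfl⟩
  have hq0 : 0 < q := by rw [hq]; positivity
  have hlogq : Real.log q = Real.log α + k * l := by
    rw [hq, Real.log_mul hα.ne' (by positivity), Real.log_pow]
  obtain ⟨x, y, hxy⟩ := red u ((C A0 + C A1 * X) * X ^ k)
  have hqN : q * N = x + y * la u := by
    rw [← hxy _ (la_quad hu), map_mul, map_pow, aeval_X, map_add, map_mul, aeval_C, aeval_C, aeval_X, hq]
    have : (algebraMap ℤ ℝ) A0 + (algebraMap ℤ ℝ) A1 * la u = α * N := by rw [hA]; simp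
    rw [this]
    ring
  have hqc : |(x : ℝ) + y * (la u)⁻¹| ≤ 2 * Real.exp Y := by
    rw [← hxy _ (la_inv_quad hu), map_mul, map_pow, aeval_X, map_add, map_mul, aeval_C, aeval_C, aeval_X,
      abs_mul, abs_pow]
    have h1 : |(la u)⁻¹| ^ k ≤ 1 := by
      apply pow_le_one₀ (abs_nonneg _)
      rw [abs_of_pos (by positivity)]
      exact inv_le_one_of_one_le₀ (by linarith)
    have h2 : |(algebraMap ℤ ℝ) A0 + (algebraMap ℤ ℝ) A1 * (la u)⁻¹| ≤ 2 * Real.exp Y := by
      simpa using hconj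
    calc _ ≤ (2 * Real.exp Y) * 1 := by gcongr
      _ = 2 * Real.exp Y := mul_one _
  -- the linear form
  obtain ⟨Λ, hΛ⟩ : ∃ Λ : ℝ, Λ = b * Real.log α - a * l := ⟨_, rfl⟩
  rw [← hΛ]
  have hΛ0 : Λ ≠ 0 := by
    rw [hΛ]
    exact sub_ne_zero.2 hne
  obtain ⟨T, hT⟩ : ∃ T : ℝ, T = 1 + Real.log (Y * B) := ⟨_, rfl⟩
  rw [← hT]
  have hT1 : 1 ≤ T := by
    have : 0 ≤ Real.log (Y * B) := Real.log_nonneg (by linarith)
    linarith
  have hYT : 1 ≤ Y ^ 2 * T ^ 2 := one_le_mul_of_one_le_of_one_le (one_le_pow₀ hY) (one_le_pow₀ hT1)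
  by_cases hbig : 1 / 2 ≤ |Λ|
  · refine le_trans ?_ hbig
    rw [one_div, Real.exp_neg]
    apply inv_anti₀ (by norm_num)
    refine he1.trans (Real.exp_le_exp.2 ?_)
    have : (10:ℝ) ^ 11 * Y ^ 2 * T ^ 2 = 10 ^ 11 * (Y ^ 2 * T ^ 2) := by ring
    rw [this]
    linarith
  rw [not_le] at hbig
  have hΛq : Λ = b * Real.log q - ((a + b * k : ℤ) : ℝ) * l := by
    rw [hΛ, hlogq]
    push_cast
    ring
  have hapos : 1 ≤ a + b * k := by
    have h1 := le_abs_self Λ
    have h2 : (b:ℝ) * l ≤ b * Real.log q := by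
      rw [hlogq]
      exact mul_le_mul_of_nonneg_left hk1 (by linarith)
    have h3 : l ≤ b * l := le_mul_of_one_le_left hl0.le hbr
    have h4 : 0 < ((a + b * k : ℤ) : ℝ) * l := by linarith
    have h5 : (0:ℝ) < ((a + b * k : ℤ) : ℝ) := by
      by_contra hneg
      rw [not_lt] at hneg
      have := mul_nonpos_of_nonpos_of_nonneg hneg hl0.le
      linarith
    have h6 : 0 < a + b * k := by exact_mod_cast h5
    omega
  obtain ⟨an, han⟩ := Int.eq_ofNat_of_zero_le (show 0 ≤ a + b * k by omega)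
  obtain ⟨bn, hbn⟩ := Int.eq_ofNat_of_zero_le (show 0 ≤ b by omega)
  obtain ⟨N0, hN0⟩ := Int.eq_ofNat_of_zero_le (show 0 ≤ N by omega)
  have han1 : 1 ≤ an := by omega
  have hbn1 : 1 ≤ bn := by omega
  have hN01 : 1 ≤ N0 := by omega
  have hbnr : (b:ℝ) = bn := by rw [hbn]; simp
  have hN0r : (N:ℝ) = N0 := by rw [hN0]; simp
  have hanr : ((a + b * k : ℤ) : ℝ) = an := by rw [han]; simp
  have hanB : (an:ℝ) ≤ 11 * (Y * B) := by
    rw [← hanr]
    push_cast
    have h1 := le_abs_self (a:ℝ)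
    have h2 : (b:ℝ) * k ≤ B * (10 * Y) := by gcongr
    have h3 : B * (10 * Y) = 10 * (Y * B) := by ring
    linarith
  have hbnB : (bn:ℝ) ≤ Y * B := by
    rw [← hbnr]
    exact hbB.trans hBYB
  obtain ⟨g, a', b', hg, hcop, hag, hbg⟩ := Nat.exists_coprime' (m := an) (n := bn)
    (Nat.gcd_pos_of_pos_left _ (by omega))
  have hg1 : (1:ℝ) ≤ g := by exact_mod_cast hg
  have ha' : 1 ≤ a' := by
    rcases Nat.eq_zero_or_pos a' with h | h
    · rw [h] at hag; omega
    · exact h
  have hb' : 1 ≤ b' := by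
    rcases Nat.eq_zero_or_pos b' with h | h
    · rw [h] at hbg; omega
    · exact h
  have har' : (1:ℝ) ≤ a' := by exact_mod_cast ha'
  have hbr' : (1:ℝ) ≤ b' := by exact_mod_cast hb'
  obtain ⟨Λ', hΛ'⟩ : ∃ Λ' : ℝ, Λ' = b' * Real.log q - a' * l := ⟨_, rfl⟩
  have hΛg : Λ = g * Λ' := by
    rw [hΛq, hanr, hbnr, hag, hbg, hΛ']
    push_cast
    ring
  have hred : |Λ'| ≤ |Λ| := by
    rw [hΛg, abs_mul, Nat.abs_cast]
    exact le_mul_of_one_le_left (abs_nonneg _) hg1
  have hΛ'0 : Λ' ≠ 0 := by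
    intro h
    apply hΛ0
    rw [hΛg, h, mul_zero]
  refine le_trans ?_ hred
  have ha'n : (a':ℝ) ≤ an := by
    rw [hag]
    push_cast
    exact le_mul_of_one_le_right (by linarith) hg1
  have hb'n : (b':ℝ) ≤ bn := by
    rw [hbg]
    push_cast
    exact le_mul_of_one_le_right (by linarith) hg1
  -- the parameters
  obtain ⟨Z, hZ⟩ : ∃ Z : ℕ, Z = ⌈3 * Y⌉₊ := ⟨_, rfl⟩
  have hZ1 : 3 * Y ≤ Z := by rw [hZ]; exact Nat.le_ceil _
  have hZ2 : (Z:ℝ) ≤ 4 * Y := by
    have := Nat.ceil_lt_add_one (show 0 ≤ 3 * Y by linarith)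
    rw [← hZ] at this
    linarith
  obtain ⟨L, hLd⟩ : ∃ L : ℕ, L = ⌈400 * T⌉₊ := ⟨_, rfl⟩
  have hL1 : 400 * T ≤ L := by rw [hLd]; exact Nat.le_ceil _
  have hL2 : (L:ℝ) ≤ 401 * T := by
    have := Nat.ceil_lt_add_one (show 0 ≤ 400 * T by linarith)
    rw [← hLd] at this
    linarith
  have hZn : 1 ≤ Z := by
    have : (1:ℝ) ≤ Z := by linarith
    exact_mod_cast this
  have hLn : 1 ≤ L := by
    have : (1:ℝ) ≤ L := by linarith
    exact_mod_cast this
  have hZr : (1:ℝ) ≤ Z := by exact_mod_cast hZn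
  have hLr : (1:ℝ) ≤ L := by exact_mod_cast hLn
  by_cases hcase : 169 * Z * L ≤ a'
  · -- the core estimate
    have hcond : 16 * (1 + Real.log (338 * Z * L * (a' + b'))) ≤ L := by
      have h1 : (338:ℝ) * Z * L * (a' + b') ≤ Real.exp (16 + 3 * (T - 1)) := by
        have h2 : (a':ℝ) + b' ≤ 12 * (Y * B) := by linarith
        have h3 : (338:ℝ) * Z * L * (a' + b') ≤ 338 * (4 * Y) * (401 * T) * (12 * (Y * B)) := by gcongr
        have h4 : (338:ℝ) * (4 * Y) * (401 * T) * (12 * (Y * B)) ≤ 6505824 * ((Y * B) * (Y * B) * T) := by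
          have h5 : Y ≤ Y * B := le_mul_of_one_le_right (by linarith) (by linarith)
          have h6 : (338:ℝ) * (4 * Y) * (401 * T) * (12 * (Y * B)) = 6505824 * (Y * (Y * B) * T) := by ring
          rw [h6]
          gcongr
        have h5 : Real.exp (T - 1) = Y * B := by
          rw [hT, add_sub_cancel_left, Real.exp_log (by linarith)]
        have h6 : T ≤ Real.exp (T - 1) := by
          have := Real.add_one_le_exp (T - 1)
          linarith
        have h7 : (6505824:ℝ) ≤ Real.exp 16 := by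
          have h8 : (2.7182818283:ℝ) ^ 16 ≤ Real.exp 1 ^ 16 := by
            apply pow_le_pow_left₀ (by norm_num)
            exact Real.exp_one_gt_d9.le
          rw [← Real.exp_nat_mul] at h8
          norm_num at h8 ⊢
          linarith
        have h8 : Real.exp (16 + 3 * (T - 1)) =
            Real.exp 16 * (Real.exp (T - 1) * Real.exp (T - 1) * Real.exp (T - 1)) := by
          rw [← Real.exp_add, ← Real.exp_add, ← Real.exp_add]
          congr 1
          ring
        rw [h8, h5]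
        refine h3.trans (h4.trans ?_)
        rw [h5] at h6
        gcongr
      have h2 : Real.log (338 * Z * L * (a' + b')) ≤ 16 + 3 * (T - 1) := by
        rw [Real.log_le_iff_le_exp (by positivity)]
        exact h1
      linarith
    have h1 := core u hu x y N0 q hq0 hN01 (by rw [← hN0r]; exact hqN) a' b' Z L ha' hb' hcop hZn hLn
      (by linarith) (by rw [hlogq]; linarith) (by
        refine hqc.trans ?_
        have h2 : Real.exp (Y + 1) ≤ Real.exp Z := Real.exp_le_exp.2 (by linarith)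
        refine le_trans ?_ h2
        rw [Real.exp_add, mul_comm]
        exact mul_le_mul_of_nonneg_left he1 (Real.exp_pos _).le) (by
        rw [← hN0r]
        exact hNY.trans (Real.exp_le_exp.2 (by linarith))) hcase hcond
    rw [← hl, ← hΛ'] at h1
    refine le_trans (Real.exp_le_exp.2 ?_) h1.le
    apply neg_le_neg
    have h2 : (28392:ℝ) * Z ^ 2 * L ^ 2 ≤ 28392 * (4 * Y) ^ 2 * (401 * T) ^ 2 := by gcongr
    refine h2.trans ?_
    have h3 : (28392:ℝ) * (4 * Y) ^ 2 * (401 * T) ^ 2 = (28392 * 16 * 160801) * (Y ^ 2 * T ^ 2) := by ring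
    have h4 : (10:ℝ) ^ 11 * Y ^ 2 * T ^ 2 = 10 ^ 11 * (Y ^ 2 * T ^ 2) := by ring
    rw [h3, h4]
    apply mul_le_mul_of_nonneg_right _ (by positivity)
    norm_num
  · -- the estimate of Liouville
    rw [not_le] at hcase
    have hcaser : (a':ℝ) ≤ 169 * Z * L := by exact_mod_cast hcase.le
    have hΛ'1 : |Λ'| < 1 / 2 := lt_of_le_of_lt hred hbig
    have hb'a : (b':ℝ) ≤ a' := by
      have h1 : (b':ℝ) * l ≤ b' * Real.log q := by
        rw [hlogq]
        exact mul_le_mul_of_nonneg_left hk1 (by linarith)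
      have h2 := le_abs_self Λ'
      have h3 : ((b':ℝ) - a') * l < 1 * l := by
        have : ((b':ℝ) - a') * l = b' * l - a' * l := by ring
        rw [this]
        linarith
      have h4 : (b':ℝ) - a' < 1 := lt_of_mul_lt_mul_right h3 hl0.le
      have h5 : (b':ℝ) < a' + 1 := by linarith
      have h6 : b' < a' + 1 := by exact_mod_cast h5
      exact_mod_cast (by omega : b' ≤ a')
    have hqb : q ^ b' = Real.exp (b' * Real.log q) := by rw [Real.exp_nat_mul, Real.exp_log hq0]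
    have hla : la u ^ a' = Real.exp (a' * l) := by rw [Real.exp_nat_mul, Real.exp_log hlam0]
    have hdiff : q ^ b' - la u ^ a' = la u ^ a' * (Real.exp Λ' - 1) := by
      rw [mul_sub, mul_one, hla, ← Real.exp_add, hqb, hΛ']
      congr 2
      ring
    obtain ⟨G, hG⟩ : ∃ G : ℤ[X], G = (C x + C y * X) ^ b' - C ((N0:ℤ) ^ b') * X ^ a' := ⟨_, rfl⟩
    have hG1 : aeval (la u) G = (N0:ℝ) ^ b' * (q ^ b' - la u ^ a') := by
      rw [hG]
      have h1 : aeval (la u) ((C x + C y * X) ^ b' - C ((N0:ℤ) ^ b') * X ^ a' : ℤ[X]) =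
          ((x:ℝ) + y * la u) ^ b' - (N0:ℝ) ^ b' * la u ^ a' := by simp
      rw [h1, ← hqN, hN0r]
      ring
    have hG2 : aeval (la u)⁻¹ G = ((x:ℝ) + y * (la u)⁻¹) ^ b' - (N0:ℝ) ^ b' * (la u)⁻¹ ^ a' := by
      rw [hG]
      simp
    have hGne : aeval (la u) G ≠ 0 := by
      rw [hG1, hdiff]
      have h1 : (N0:ℝ) ≠ 0 := by
        have : N0 ≠ 0 := by omega
        exact_mod_cast this
      have h2 : Real.exp Λ' - 1 ≠ 0 := by
        intro h
        apply hΛ'0
        rw [← Real.exp_eq_one_iff]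
        linarith
      positivity
    have h1 := norm_ge hu G hGne
    have hN0e : (N0:ℝ) ^ b' ≤ Real.exp (Y * b') := by
      rw [mul_comm, Real.exp_nat_mul, ← hN0r]
      exact pow_le_pow_left₀ (by linarith) hNY b'
    have h2 : |aeval (la u)⁻¹ G| ≤ Real.exp (2 * Y * b' + 1) := by
      rw [hG2]
      have h3 : |((x:ℝ) + y * (la u)⁻¹) ^ b'| ≤ Real.exp (2 * Y * b') := by
        rw [abs_pow]
        have h4 : |(x:ℝ) + y * (la u)⁻¹| ≤ Real.exp (2 * Y) := by
          refine hqc.trans ?_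
          have h5 : Real.exp (Y + 1) ≤ Real.exp (2 * Y) := Real.exp_le_exp.2 (by linarith)
          refine le_trans ?_ h5
          rw [Real.exp_add, mul_comm]
          exact mul_le_mul_of_nonneg_left he1 (Real.exp_pos _).le
        rw [show 2 * Y * (b':ℝ) = b' * (2 * Y) by ring, Real.exp_nat_mul]
        exact pow_le_pow_left₀ (abs_nonneg _) h4 b'
      have h4 : |(N0:ℝ) ^ b' * (la u)⁻¹ ^ a'| ≤ Real.exp (2 * Y * b') := by
        rw [abs_mul, abs_pow, abs_pow, Nat.abs_cast, abs_of_pos (show 0 < (la u)⁻¹ by positivity)]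
        have h5 : (la u)⁻¹ ^ a' ≤ 1 := pow_le_one₀ (by positivity) (inv_le_one_of_one_le₀ (by linarith))
        calc (N0:ℝ) ^ b' * (la u)⁻¹ ^ a' ≤ Real.exp (Y * b') * 1 := by gcongr
          _ ≤ Real.exp (2 * Y * b') := by
            rw [mul_one]
            apply Real.exp_le_exp.2
            have h6 : 0 ≤ Y * (b':ℝ) := by positivity
            linarith
      have h5 := abs_sub (((x:ℝ) + y * (la u)⁻¹) ^ b') ((N0:ℝ) ^ b' * (la u)⁻¹ ^ a')
      have h6 : 2 * Real.exp (2 * Y * b') ≤ Real.exp (2 * Y * b' + 1) := by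
        rw [Real.exp_add, mul_comm]
        exact mul_le_mul_of_nonneg_left he1 (Real.exp_pos _).le
      linarith
    have h3 : |aeval (la u) G| ≤ Real.exp (Y * b') * (Real.exp (a' * Y) * (2 * |Λ'|)) := by
      rw [hG1, hdiff, abs_mul, abs_mul, abs_pow, Nat.abs_cast]
      have h4 : |la u ^ a'| ≤ Real.exp (a' * Y) := by
        rw [abs_of_pos (by positivity), hla]
        apply Real.exp_le_exp.2
        exact mul_le_mul_of_nonneg_left hlY (by linarith)
      have h5 : |Real.exp Λ' - 1| ≤ 2 * |Λ'| := Real.abs_exp_sub_one_le (by linarith)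
      gcongr
    have h4 : (1:ℝ) ≤ Real.exp (3 * Y * b' + a' * Y + 2) * |Λ'| := by
      calc (1:ℝ) ≤ |aeval (la u) G| * |aeval (la u)⁻¹ G| := h1
        _ ≤ (Real.exp (Y * b') * (Real.exp (a' * Y) * (2 * |Λ'|))) * Real.exp (2 * Y * b' + 1) :=
          mul_le_mul h3 h2 (abs_nonneg _) (by positivity)
        _ ≤ (Real.exp (Y * b') * (Real.exp (a' * Y) * (Real.exp 1 * |Λ'|))) * Real.exp (2 * Y * b' + 1) := by
          gcongr
        _ = Real.exp (3 * Y * b' + a' * Y + 2) * |Λ'| := by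
          have e : Real.exp (3 * Y * b' + a' * Y + 2) =
              Real.exp (Y * b') * Real.exp (a' * Y) * Real.exp 1 * Real.exp (2 * Y * b' + 1) := by
            rw [← Real.exp_add, ← Real.exp_add, ← Real.exp_add]
            congr 1
            ring
          rw [e]
          ring
    have h5 : Real.exp (-(3 * Y * b' + a' * Y + 2)) ≤ |Λ'| := by
      rw [Real.exp_neg, inv_le_iff_one_le_mul₀ (Real.exp_pos _), mul_comm]
      exact h4
    refine le_trans (Real.exp_le_exp.2 ?_) h5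
    apply neg_le_neg
    have h6 : 3 * Y * (b':ℝ) + a' * Y + 2 ≤ 4 * Y * a' + 2 := by
      have h7 : 3 * Y * (b':ℝ) ≤ 3 * Y * a' := mul_le_mul_of_nonneg_left hb'a (by linarith)
      linarith
    have h7 : 4 * Y * (a':ℝ) ≤ 4 * Y * (169 * (4 * Y) * (401 * T)) := by
      apply mul_le_mul_of_nonneg_left _ (by linarith)
      refine hcaser.trans ?_
      gcongr
    have h8 : 4 * Y * (169 * (4 * Y) * (401 * T)) = 1084304 * (Y ^ 2 * T) := by ring
    have h9 : Y ^ 2 * T ≤ Y ^ 2 * T ^ 2 := by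
      apply mul_le_mul_of_nonneg_left _ (by positivity)
      rw [pow_two]
      exact le_mul_of_one_le_left (by linarith) hT1
    have h10 : (10:ℝ) ^ 11 * Y ^ 2 * T ^ 2 = 10 ^ 11 * (Y ^ 2 * T ^ 2) := by ring
    rw [h10]
    linarith

end Pool.Agent.N854.MX2
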