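import Mathlib

/-!
# Unbounded solutions of `x_{n+1} = (β x_n + x_{n-1}) / x_{n-2}`
-/

set_option autoImplicit false

namespace Pool.Agent.N854.Rat

/-- the state `(x_n, x_{n+1}, x_{n+2})` -/
noncomputable def st (β a b c : ℝ) : ℕ → ℝ × ℝ × ℝ
  | 0 => (a, b, c)
  | n + 1 => ((st β a b c n).2.1, (st β a b c n).2.2,
      (β * (st β a b c n).2.2 + (st β a b c n).2.1) / (st β a b c n).1)

noncomputable def xs (β a b c : ℝ) (n : ℕ) : ℝ := (st β a b c n).1

theorem xs_rec (β a b c : ℝ) (n : ℕ) :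
    xs β a b c (n + 3) = (β * xs β a b c (n + 2) + xs β a b c (n + 1)) / xs β a b c n := rfl

theorem st_pos {β a b c : ℝ} (hβ : 0 < β) (ha : 0 < a) (hb : 0 < b) (hc : 0 < c) (n : ℕ) :
    0 < (st β a b c n).1 ∧ 0 < (st β a b c n).2.1 ∧ 0 < (st β a b c n).2.2 := by
  induction n with
  | zero => exact ⟨ha, hb, hc⟩
  | succ n ih =>
    obtain ⟨h1, h2, h3⟩ := ih
    exact ⟨h2, h3, by simp only [st]; positivity⟩

theorem xs_pos {β a b c : ℝ} (hβ : 0 < β) (ha : 0 < a) (hb : 0 < b) (hc : 0 < c) (n : ℕ) :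
    0 < xs β a b c n := (st_pos hβ ha hb hc n).1

/-- abstract form: `s k = x (2 k)`, `X k = x (2 k + 1)` -/
theorem core {q Q M C D β : ℝ} (hq0 : 0 < q) (hq1 : q < 1) (hβ : β = q ^ 2)
    (hQ : Q = (1 + q) / 2) (hD : D = (Q - q) * (1 - Q)) (hC : C = β + 1 / β) (hM : M * D = C)
    (hM0 : 0 < M) (s X : ℕ → ℝ)
    (hs : ∀ k, 0 < s k) (hX : ∀ k, 0 < X k)
    (h1 : ∀ k, X (k + 1) * s k = β * s (k + 1) + X k)
    (h2 : ∀ k, s (k + 2) * X k = β * X (k + 1) + s (k + 1))
    (s0 : s 0 = q) (s1 : s 1 = q) (X0 : X 0 = M) :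
    ∀ k, s k ≤ Q - (Q - q) * Q ^ k ∧ s (k + 1) ≤ Q - (Q - q) * Q ^ (k + 1) ∧
      s (k + 2) ≤ Q - (Q - q) * Q ^ (k + 2) ∧ s (k + 3) ≤ Q - (Q - q) * Q ^ (k + 3) ∧
      M ≤ X k * Q ^ k := by
  have hQ0 : 0 < Q := by rw [hQ]; linarith
  have hQ1 : Q < 1 := by rw [hQ]; linarith
  have hqQ : q < Q := by rw [hQ]; linarith
  have hβ0 : 0 < β := by rw [hβ]; positivity
  have hβ1 : β < 1 := by rw [hβ]; nlinarith
  have hD0 : 0 < D := by rw [hD]; exact mul_pos (by linarith) (by linarith)
  have hC2 : 2 ≤ C := by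
    rw [hC, ← sub_nonneg]
    have : β + 1 / β - 2 = (β - 1) ^ 2 / β := by field_simp; ring
    rw [this]; positivity
  -- the bounds increase
  have hu : ∀ k : ℕ, Q - (Q - q) * Q ^ (k + 1) = Q - (Q - q) * Q ^ k + D * Q ^ k := by
    intro k; rw [hD]; ring
  have hstep : ∀ k : ℕ, Q - (Q - q) * Q ^ k ≤ Q - (Q - q) * Q ^ (k + 1) := by
    intro k
    rw [hu k]
    have : 0 < D * Q ^ k := by positivity
    linarith
  have huQ : ∀ k : ℕ, Q - (Q - q) * Q ^ k ≤ Q := by
    intro k
    have : 0 < (Q - q) * Q ^ k := mul_pos (by linarith) (by positivity)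
    linarith
  -- key identity
  have key : ∀ k, s (k + 2) * s k * X k = β * X k + (β ^ 2 * s (k + 1) + s (k + 1) * s k) := by
    intro k
    have e1 := h1 k
    have e2 := h2 k
    calc s (k + 2) * s k * X k = (s (k + 2) * X k) * s k := by ring
      _ = (β * X (k + 1) + s (k + 1)) * s k := by rw [e2]
      _ = β * (X (k + 1) * s k) + s (k + 1) * s k := by ring
      _ = β * (β * s (k + 1) + X k) + s (k + 1) * s k := by rw [e1]
      _ = _ := by ring
  have keyge : ∀ k, β ≤ s (k + 2) * s k := by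
    intro k
    have h := key k
    have h3 : 0 < β ^ 2 * s (k + 1) + s (k + 1) * s k :=
      add_pos (mul_pos (by positivity) (hs _)) (mul_pos (hs _) (hs _))
    by_contra hcon
    push Not at hcon
    have := mul_lt_mul_of_pos_right hcon (hX k)
    linarith
  -- growth of X
  have grow : ∀ k, s k ≤ Q → X k ≤ X (k + 1) * Q := by
    intro k hk
    have e1 := h1 k
    have h3 : 0 < β * s (k + 1) := mul_pos hβ0 (hs _)
    have h4 : X (k + 1) * s k ≤ X (k + 1) * Q := mul_le_mul_of_nonneg_left hk (hX _).le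
    linarith
  have hMD : M * D = C := hM
  intro k
  induction k with
  | zero =>
    have u1 : Q - (Q - q) * Q ^ (0 + 1) = q + D := by rw [hu 0]; ring
    have hs0 : s 0 ≤ Q := by rw [s0]; exact hqQ.le
    have hX1 : M ≤ X 1 := by
      have h := grow 0 hs0
      rw [X0] at h
      have h5 : X (0 + 1) * Q ≤ X (0 + 1) * 1 := mul_le_mul_of_nonneg_left hQ1.le (hX _).le
      simp only [zero_add] at h h5
      linarith
    have hs2 : s 2 ≤ q + D := by
      have h := key 0
      simp only [zero_add] at h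
      rw [s0, s1, X0] at h
      -- s2 * q * M = β M + β^2 q + q^2
      have h6 : s 2 * M = q * M + (β ^ 2 + q) := by
        have : q * (s 2 * M) = q * (q * M + (β ^ 2 + q)) := by
          rw [hβ] at h ⊢
          linarith
        exact mul_left_cancel₀ hq0.ne' this
      have h7 : β ^ 2 + q ≤ C := by nlinarith
      have h8 : s 2 * M ≤ (q + D) * M := by
        have : (q + D) * M = q * M + C := by rw [← hMD]; ring
        rw [this]; linarith
      exact le_of_mul_le_mul_right h8 hM0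
    have hs21 : s 2 ≤ 1 := by
      have := huQ (0 + 1)
      rw [u1] at this
      linarith
    have hs3 : s 3 ≤ q + D := by
      have h := key 1
      simp only [Nat.reduceAdd] at h
      rw [s1] at h
      -- s3 * q * X1 = β X1 + β^2 s2 + s2 q
      have hX1p := hX 1
      have h6 : s 3 * X 1 = q * X 1 + (q ^ 3 * s 2 + s 2) := by
        have : q * (s 3 * X 1) = q * (q * X 1 + (q ^ 3 * s 2 + s 2)) := by
          rw [hβ] at h
          linarith
        exact mul_left_cancel₀ hq0.ne' this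
      have h7 : q ^ 3 * s 2 + s 2 ≤ 2 := by
        have hq3 : q ^ 3 ≤ 1 := pow_le_one₀ hq0.le hq1.le
        have hs2p := hs 2
        nlinarith
      have h8 : s 3 * X 1 ≤ (q + D) * X 1 := by
        have h9 : C ≤ D * X 1 := by
          rw [← hMD, mul_comm M D]
          exact mul_le_mul_of_nonneg_left hX1 hD0.le
        have : (q + D) * X 1 = q * X 1 + D * X 1 := by ring
        rw [this]; linarith
      exact le_of_mul_le_mul_right h8 hX1p
    have a1 := hstep 1
    have a2 := hstep 2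
    simp only [Nat.reduceAdd] at a1 a2
    simp only [zero_add] at u1
    refine ⟨?_, ?_, ?_, ?_, ?_⟩
    · rw [s0]; simp
    · simp only [zero_add]; rw [s1, u1]; linarith
    · simp only [zero_add]; linarith
    · simp only [zero_add]; linarith
    · rw [X0]; simp
  | succ k ih =>
    obtain ⟨b0, b1, b2, b3, bX⟩ := ih
    have g0 := grow k (b0.trans (huQ k))
    have g1 := grow (k + 1) (b1.trans (huQ (k + 1)))
    have hX2 : M ≤ X (k + 2) * Q ^ (k + 2) := by
      calc M ≤ X k * Q ^ k := bX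
        _ ≤ (X (k + 1) * Q) * Q ^ k := mul_le_mul_of_nonneg_right g0 (by positivity)
        _ ≤ ((X (k + 1 + 1) * Q) * Q) * Q ^ k :=
            mul_le_mul_of_nonneg_right (mul_le_mul_of_nonneg_right g1 hQ0.le) (by positivity)
        _ = X (k + 2) * Q ^ (k + 2) := by ring_nf
    have hX1 : M ≤ X (k + 1) * Q ^ (k + 1) := by
      calc M ≤ X k * Q ^ k := bX
        _ ≤ (X (k + 1) * Q) * Q ^ k := mul_le_mul_of_nonneg_right g0 (by positivity)
        _ = X (k + 1) * Q ^ (k + 1) := by ring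
    have hs4 : s (k + 4) ≤ Q - (Q - q) * Q ^ (k + 1) := by
      have hk := key (k + 2)
      have hge := keyge k
      have hp0 := hs k
      have hp2 := hs (k + 2)
      have hp3 := hs (k + 3)
      have hp4 := hs (k + 4)
      have hXp := hX (k + 2)
      have l2 : s (k + 2) ≤ 1 := (b2.trans (huQ _)).trans hQ1.le
      have l3 : s (k + 3) ≤ 1 := (b3.trans (huQ _)).trans hQ1.le
      have l0 : s k ≤ 1 := (b0.trans (huQ _)).trans hQ1.le
      have e0 : s (k + 2 + 2) = s (k + 4) := rfl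
      have e1 : s (k + 2 + 1) = s (k + 3) := rfl
      rw [e0, e1] at hk
      -- β * s(k+4) * X ≤ s(k+4) s(k+2) s(k) X = (β X + e) s k
      have m1 : β * (s (k + 4) * X (k + 2)) ≤
          (β * X (k + 2) + (β ^ 2 * s (k + 3) + s (k + 3) * s (k + 2))) * s k := by
        calc β * (s (k + 4) * X (k + 2)) ≤ (s (k + 2) * s k) * (s (k + 4) * X (k + 2)) :=
              mul_le_mul_of_nonneg_right hge (by positivity)
          _ = (s (k + 4) * s (k + 2) * X (k + 2)) * s k := by ring
          _ = _ := by rw [hk]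
      have m2 : (β ^ 2 * s (k + 3) + s (k + 3) * s (k + 2)) * s k ≤ β * C := by
        have hbc : β * C = β ^ 2 + 1 := by rw [hC]; field_simp
        rw [hbc]
        have n1 : β ^ 2 * s (k + 3) ≤ β ^ 2 := by
          have : β ^ 2 * s (k + 3) ≤ β ^ 2 * 1 := mul_le_mul_of_nonneg_left l3 (by positivity)
          linarith
        have n2 : s (k + 3) * s (k + 2) ≤ 1 := by
          calc s (k + 3) * s (k + 2) ≤ 1 * 1 := mul_le_mul l3 l2 hp2.le zero_le_one
            _ = 1 := one_mul 1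
        calc (β ^ 2 * s (k + 3) + s (k + 3) * s (k + 2)) * s k
            ≤ (β ^ 2 * s (k + 3) + s (k + 3) * s (k + 2)) * 1 :=
              mul_le_mul_of_nonneg_left l0 (by positivity)
          _ ≤ β ^ 2 + 1 := by linarith
      have m3 : s (k + 4) * X (k + 2) ≤ s k * X (k + 2) + C := by
        have : β * (s (k + 4) * X (k + 2)) ≤ β * (s k * X (k + 2) + C) := by
          calc β * (s (k + 4) * X (k + 2)) ≤ _ := m1
            _ = β * X (k + 2) * s k + (β ^ 2 * s (k + 3) + s (k + 3) * s (k + 2)) * s k := by ring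
            _ ≤ β * X (k + 2) * s k + β * C := by linarith
            _ = _ := by ring
        exact le_of_mul_le_mul_left this hβ0
      have m4 : C ≤ D * Q ^ k * X (k + 2) := by
        have hQk : Q ^ (k + 2) ≤ Q ^ k := pow_le_pow_of_le_one hQ0.le hQ1.le (by omega)
        calc C = D * M := by rw [← hMD]; ring
          _ ≤ D * (X (k + 2) * Q ^ (k + 2)) := mul_le_mul_of_nonneg_left hX2 hD0.le
          _ ≤ D * (X (k + 2) * Q ^ k) :=
              mul_le_mul_of_nonneg_left (mul_le_mul_of_nonneg_left hQk hXp.le) hD0.le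
          _ = _ := by ring
      have m5 : s (k + 4) * X (k + 2) ≤ (s k + D * Q ^ k) * X (k + 2) := by
        calc s (k + 4) * X (k + 2) ≤ s k * X (k + 2) + C := m3
          _ ≤ s k * X (k + 2) + D * Q ^ k * X (k + 2) := by linarith
          _ = _ := by ring
      have m6 : s (k + 4) ≤ s k + D * Q ^ k := le_of_mul_le_mul_right m5 hXp
      rw [hu k]
      linarith
    have a1 := hstep (k + 1)
    have a2 := hstep (k + 2)
    have a3 := hstep (k + 3)
    refine ⟨b1, b2, b3, ?_, hX1⟩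
    have e0 : s (k + 1 + 3) = s (k + 4) := rfl
    have e3 : Q ^ (k + 1 + 3) = Q ^ (k + 3 + 1) := rfl
    have e2 : Q ^ (k + 1 + 1) = Q ^ (k + 2) := rfl
    have e4 : Q ^ (k + 2 + 1) = Q ^ (k + 3) := rfl
    rw [e0, e3]
    rw [e2] at a1
    rw [e4] at a2
    linarith

/-- for every `β ∈ (0,1)` there is an unbounded positive solution -/
theorem main (β : ℝ) (h0 : 0 < β) (h1 : β < 1) :
    ∃ x : ℕ → ℝ, (∀ n, 0 < x n) ∧ (∀ n, x (n + 3) = (β * x (n + 2) + x (n + 1)) / x n) ∧
      ¬ BddAbove (Set.range x) := by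
  set q := Real.sqrt β with hqd
  have hq0 : 0 < q := Real.sqrt_pos.mpr h0
  have hqq : β = q ^ 2 := (Real.sq_sqrt h0.le).symm
  have hq1 : q < 1 := by
    by_contra h
    push Not at h
    nlinarith
  obtain ⟨Q, hQ⟩ : ∃ Q, Q = (1 + q) / 2 := ⟨_, rfl⟩
  obtain ⟨D, hD⟩ : ∃ D, D = (Q - q) * (1 - Q) := ⟨_, rfl⟩
  obtain ⟨C, hC⟩ : ∃ C, C = β + 1 / β := ⟨_, rfl⟩
  have hQ0 : 0 < Q := by rw [hQ]; linarith
  have hQ1 : Q < 1 := by rw [hQ]; linarith
  have hqQ : q < Q := by rw [hQ]; linarith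
  have hD0 : 0 < D := by rw [hD]; exact mul_pos (by linarith) (by linarith)
  have hC0 : 0 < C := by rw [hC]; positivity
  set M := C / D with hMd
  have hM0 : 0 < M := by positivity
  have hM : M * D = C := div_mul_cancel₀ C hD0.ne'
  set x := xs β q M q with hx
  have hpos : ∀ n, 0 < x n := fun n => xs_pos h0 hq0 hM0 hq0 n
  have hrec : ∀ n, x (n + 3) = (β * x (n + 2) + x (n + 1)) / x n := fun n => xs_rec β q M q n
  refine ⟨x, hpos, hrec, ?_⟩
  have hc := core hq0 hq1 hqq hQ hD hC hM hM0 (fun k => x (2 * k)) (fun k => x (2 * k + 1))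
    (fun k => hpos _) (fun k => hpos _)
    (fun k => by
      have h := hrec (2 * k)
      have e : 2 * (k + 1) + 1 = 2 * k + 3 := by ring
      have e2 : 2 * (k + 1) = 2 * k + 2 := by ring
      simp only [e, e2]
      rw [h, div_mul_cancel₀ _ (hpos _).ne'])
    (fun k => by
      have h := hrec (2 * k + 1)
      have e : 2 * (k + 2) = 2 * k + 1 + 3 := by ring
      have e2 : 2 * (k + 1) + 1 = 2 * k + 1 + 2 := by ring
      have e3 : 2 * (k + 1) = 2 * k + 1 + 1 := by ring
      simp only [e, e2, e3]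
      rw [h, div_mul_cancel₀ _ (hpos _).ne'])
    rfl rfl rfl
  rintro ⟨B, hB⟩
  have hB' : ∀ n, x n ≤ B := fun n => hB ⟨n, rfl⟩
  have hB0 : 0 < B := (hpos 0).trans_le (hB' 0)
  obtain ⟨k, hk⟩ := exists_pow_lt_of_lt_one (div_pos hM0 hB0) hQ1
  have h5 := (hc k).2.2.2.2
  have h6 : x (2 * k + 1) * Q ^ k ≤ B * Q ^ k :=
    mul_le_mul_of_nonneg_right (hB' _) (by positivity)
  have h7 : B * Q ^ k < M := by
    rw [lt_div_iff₀ hB0] at hk
    linarith
  have h8 : M ≤ x (2 * k + 1) * Q ^ k := h5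
  linarith

end Pool.Agent.N854.Rat
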